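import Mathlib

/-!
# Quadratic forms in `k`-th powers: for even `k` the Hasse principle never sets in

For an even `k ≥ 2` and every `s ≥ 8 k ^ 3 + 2` we give a nonsingular quadratic form `Q` over the
rational numbers in `s` variables such that `F = Q (y₁ ^ k, ..., y_s ^ k)` has a nontrivial zero over
the real numbers and over all `p`-adic fields, but none over the rational numbers.

The form is `Q = (x₀ - 2 x₁) ^ 2 + x₀ x₂ + x₂ ^ 2 + x₃ ^ 2 + ...`.  At `k`-th powers, which are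
nonnegative, it vanishes only if `x₀ = 2 x₁` and all other variables are zero.
-/

set_option autoImplicit false

namespace Pool.Agent.Results.MP_c0a553_nt.EvenPowers

open Finset

/-- The form `F (y) = ∑ A i j * y i ^ k * y j ^ k`, that is, the quadratic form with the symmetric
matrix `A` evaluated at the `k`-th powers, has a nontrivial zero over the field `L`. -/
def HasZero (L : Type) [Field L] {s : ℕ} (A : Matrix (Fin s) (Fin s) ℚ) (k : ℕ) : Prop :=
  ∃ y : Fin s → L, y ≠ 0 ∧ ∑ i, ∑ j, (A i j : L) * (y i ^ k * y j ^ k) = 0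

/-- All forms `Q (y₁ ^ k, ..., y_s ^ k)`, with a nonsingular quadratic form `Q` in `s` variables over
the rational numbers, satisfy the Hasse principle. -/
def Hasse (k s : ℕ) : Prop :=
  ∀ A : Matrix (Fin s) (Fin s) ℚ, A.IsSymm → A.det ≠ 0 → HasZero ℝ A k →
    (∀ (p : ℕ) [Fact p.Prime], HasZero ℚ_[p] A k) → HasZero ℚ A k

/-- The matrix of the quadratic form `(x₀ - 2 x₁) ^ 2 + x₀ x₂ + x₂ ^ 2 + x₃ ^ 2 + ...`. -/
def mat (t : ℕ) : Matrix (Fin (t + 3)) (Fin (t + 3)) ℚ := fun i j =>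
  (if i = j then (if i = 1 then 4 else 1) else 0) +
  (if i = 0 then (if j = 1 then -2 else 0) + (if j = 2 then 1 / 2 else 0) else 0) +
  (if j = 0 then (if i = 1 then -2 else 0) + (if i = 2 then 1 / 2 else 0) else 0)

lemma mat_symm (t : ℕ) : (mat t).IsSymm := by
  ext i j
  simp only [Matrix.transpose_apply, mat]
  have h : (if j = i then (if j = 1 then (4 : ℚ) else 1) else 0) =
      (if i = j then (if i = 1 then 4 else 1) else 0) := by
    by_cases h : i = j
    · subst h; rfl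
    · rw [if_neg h, if_neg (fun h' => h h'.symm)]
  rw [h]
  ring

lemma ne10 (t : ℕ) : (1 : Fin (t + 3)) ≠ 0 := by
  intro h
  have := congrArg Fin.val h
  rw [Fin.val_one] at this
  simp at this

lemma ne20 (t : ℕ) : (2 : Fin (t + 3)) ≠ 0 := by
  intro h
  have := congrArg Fin.val h
  rw [Fin.val_two] at this
  simp at this

lemma ne21 (t : ℕ) : (2 : Fin (t + 3)) ≠ 1 := by
  intro h
  have := congrArg Fin.val h
  rw [Fin.val_two, Fin.val_one] at this
  omega

lemma succ3_ne1 (t : ℕ) (i : Fin t) : (i.succ.succ.succ : Fin (t + 3)) ≠ 1 := by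
  intro h
  have := congrArg Fin.val h
  rw [Fin.val_one] at this
  simp at this

lemma succ3_ne2 (t : ℕ) (i : Fin t) : (i.succ.succ.succ : Fin (t + 3)) ≠ 2 := by
  intro h
  have := congrArg Fin.val h
  rw [Fin.val_two] at this
  simp at this

/-- multiplication of the matrix with a vector -/
lemma row_eq {L : Type} [Field L] [CharZero L] (t : ℕ) (X : Fin (t + 3) → L) (i : Fin (t + 3)) :
    ∑ j, (mat t i j : L) * X j = (if i = 1 then 4 * X i else X i) +
      (if i = 0 then -2 * X 1 + 1 / 2 * X 2 else 0) +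
      ((if i = 1 then -2 * X 0 else 0) + (if i = 2 then 1 / 2 * X 0 else 0)) := by
  have e1 : ∀ j, (mat t i j : L) * X j = (if i = j then (if i = 1 then 4 * X j else X j) else 0) +
      ((if j = 1 then (if i = 0 then -2 * X j else 0) else 0) +
        (if j = 2 then (if i = 0 then 1 / 2 * X j else 0) else 0)) +
      (if j = 0 then (if i = 1 then -2 * X j else 0) + (if i = 2 then 1 / 2 * X j else 0) else 0) := by
    intro j
    unfold mat
    split_ifs <;> push_cast <;> ring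
  rw [sum_congr rfl fun j _ => e1 j]
  simp only [sum_add_distrib, sum_ite_eq, sum_ite_eq', mem_univ, if_true]
  congr 1
  congr 1
  by_cases h : i = 0 <;> simp [h]

lemma form_eq {L : Type} [Field L] [CharZero L] (t : ℕ) (X : Fin (t + 3) → L) :
    ∑ i, ∑ j, (mat t i j : L) * (X i * X j) =
      (X 0 - 2 * X 1) ^ 2 + X 0 * X 2 + X 2 ^ 2 + ∑ i : Fin t, X i.succ.succ.succ ^ 2 := by
  have h1 : ∀ i, ∑ j, (mat t i j : L) * (X i * X j) = X i * ∑ j, (mat t i j : L) * X j := by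
    intro i
    rw [mul_sum]
    exact sum_congr rfl fun j _ => by ring
  simp only [h1, row_eq]
  rw [Fin.sum_univ_succ, Fin.sum_univ_succ, Fin.sum_univ_succ]
  have e1 : (Fin.succ 0 : Fin (t + 3)) = 1 := rfl
  have e2 : (Fin.succ (Fin.succ 0) : Fin (t + 3)) = 2 := rfl
  have h2 : ∀ i : Fin t, (i.succ.succ.succ : Fin (t + 3)) ≠ 0 := fun i => Fin.succ_ne_zero _
  have h3 : ∀ i : Fin t, (i.succ.succ.succ : Fin (t + 3)) ≠ 1 := succ3_ne1 t
  have h4 : ∀ i : Fin t, (i.succ.succ.succ : Fin (t + 3)) ≠ 2 := succ3_ne2 t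
  have h10 : (1 : Fin (t + 3)) ≠ 0 := ne10 t
  have h20 : (2 : Fin (t + 3)) ≠ 0 := ne20 t
  have h21 : (2 : Fin (t + 3)) ≠ 1 := ne21 t
  simp only [e1, e2, h2, h3, h4, h10, h20, h21, h10.symm, h20.symm, h21.symm, if_true, if_false,
    add_zero]
  have h5 : ∑ i : Fin t, X i.succ.succ.succ * X i.succ.succ.succ =
      ∑ i : Fin t, X i.succ.succ.succ ^ 2 := sum_congr rfl fun i _ => by ring
  rw [h5]
  ring

lemma mat_det (t : ℕ) : (mat t).det ≠ 0 := by
  intro h
  obtain ⟨v, hv, hv0⟩ := Matrix.exists_mulVec_eq_zero_iff.2 h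
  apply hv
  have hrow : ∀ i, (if i = 1 then 4 * v i else v i) +
      (if i = 0 then -2 * v 1 + 1 / 2 * v 2 else 0) +
      ((if i = 1 then -2 * v 0 else 0) + (if i = 2 then 1 / 2 * v 0 else 0)) = 0 := by
    intro i
    have h1 := row_eq (L := ℚ) t v i
    rw [← h1]
    have h2 := congrFun hv0 i
    simpa [Matrix.mulVec, dotProduct] using h2
  have h10 : (1 : Fin (t + 3)) ≠ 0 := ne10 t
  have h20 : (2 : Fin (t + 3)) ≠ 0 := ne20 t
  have h21 : (2 : Fin (t + 3)) ≠ 1 := ne21 t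
  have r0 := hrow 0
  have r1 := hrow 1
  have r2 := hrow 2
  simp only [h10, h20, h21, h10.symm, h20.symm, h21.symm, if_true, if_false, add_zero, zero_add]
    at r0 r1 r2
  have v2 : v 2 = 0 := by linarith
  have v0 : v 0 = 0 := by linarith
  have v1 : v 1 = 0 := by linarith
  funext i
  by_cases h0 : i = 0
  · rw [h0]; exact v0
  by_cases h1 : i = 1
  · rw [h1]; exact v1
  by_cases h2 : i = 2
  · rw [h2]; exact v2
  have h3 := hrow i
  simp only [h0, h1, h2, if_false, add_zero] at h3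
  exact h3

/-- There is no rational zero. -/
lemma no_rational (t k : ℕ) (hk : Even k) (hk0 : k ≠ 0) : ¬ HasZero ℚ (mat t) k := by
  rintro ⟨y, hy, hy0⟩
  have h1 := form_eq (L := ℚ) t (fun i => y i ^ k)
  rw [hy0] at h1
  have hn : ∀ i, 0 ≤ y i ^ k := fun i => hk.pow_nonneg _
  have hs : 0 ≤ ∑ i : Fin t, (y i.succ.succ.succ ^ k) ^ 2 :=
    sum_nonneg fun i _ => sq_nonneg _
  have h02 : 0 ≤ y 0 ^ k * y 2 ^ k := mul_nonneg (hn 0) (hn 2)
  have a1 : (y 0 ^ k - 2 * y 1 ^ k) ^ 2 = 0 := by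
    nlinarith [sq_nonneg (y 0 ^ k - 2 * y 1 ^ k), sq_nonneg (y 2 ^ k)]
  have a2 : (y 2 ^ k) ^ 2 = 0 := by
    nlinarith [sq_nonneg (y 0 ^ k - 2 * y 1 ^ k), sq_nonneg (y 2 ^ k)]
  have a3 : ∑ i : Fin t, (y i.succ.succ.succ ^ k) ^ 2 = 0 := by
    nlinarith [sq_nonneg (y 0 ^ k - 2 * y 1 ^ k), sq_nonneg (y 2 ^ k)]
  have b1 : y 0 ^ k = 2 * y 1 ^ k := by
    have := pow_eq_zero_iff (two_ne_zero) |>.1 a1
    linarith
  have b2 : y 2 = 0 := by
    have := pow_eq_zero_iff (two_ne_zero) |>.1 a2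
    exact pow_eq_zero_iff hk0 |>.1 this
  have b3 : ∀ i : Fin t, y i.succ.succ.succ = 0 := by
    intro i
    have := (sum_eq_zero_iff_of_nonneg (fun i _ => sq_nonneg _)).1 a3 i (mem_univ i)
    exact pow_eq_zero_iff hk0 |>.1 (pow_eq_zero_iff (two_ne_zero) |>.1 this)
  have b4 : y 1 = 0 := by
    by_contra h
    obtain ⟨m, hm⟩ := hk
    have h2 : ((y 0 / y 1) ^ m) ^ 2 = 2 := by
      rw [← pow_mul, div_pow, div_eq_iff (pow_ne_zero _ h)]
      have : m * 2 = k := by omega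
      rw [this]
      exact b1
    have h3 : Irrational (Real.sqrt 2) := irrational_sqrt_two
    apply h3
    refine ⟨|(y 0 / y 1) ^ m|, ?_⟩
    have h4 : ((|(y 0 / y 1) ^ m| : ℚ) : ℝ) ^ 2 = 2 := by
      have h5 : |(y 0 / y 1) ^ m| ^ 2 = 2 := by rw [sq_abs]; exact h2
      exact_mod_cast h5
    have h5 : (0 : ℝ) ≤ ((|(y 0 / y 1) ^ m| : ℚ) : ℝ) := by exact_mod_cast abs_nonneg _
    rw [← h4, Real.sqrt_sq h5]
  have b5 : y 0 = 0 := by
    rw [b4, zero_pow hk0, mul_zero] at b1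
    exact pow_eq_zero_iff hk0 |>.1 b1
  apply hy
  funext i
  refine Fin.cases b5 (fun i => ?_) i
  refine Fin.cases b4 (fun i => ?_) i
  refine Fin.cases b2 (fun i => ?_) i
  exact b3 i

/-- There is a real zero. -/
lemma real_zero (t k : ℕ) (hk0 : k ≠ 0) : HasZero ℝ (mat t) k := by
  have h20 : (2 : Fin (t + 3)) ≠ 0 := ne20 t
  have h21 : (2 : Fin (t + 3)) ≠ 1 := ne21 t
  have h10 : (1 : Fin (t + 3)) ≠ 0 := ne10 t
  have h3 : ∀ i : Fin t, (i.succ.succ.succ : Fin (t + 3)) ≠ 1 := succ3_ne1 t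
  refine ⟨fun i => if i = 0 then (2 : ℝ) ^ ((1 : ℝ) / k) else if i = 1 then 1 else 0, ?_, ?_⟩
  · intro h
    have := congrFun h 1
    simp [h10] at this
  · rw [form_eq (L := ℝ) t]
    simp only [h10, h20, h21, h3, if_true, if_false, Fin.succ_ne_zero, zero_pow hk0, one_pow]
    have h4 : ((2 : ℝ) ^ ((1 : ℝ) / k)) ^ k = 2 := by
      rw [← Real.rpow_natCast, ← Real.rpow_mul (by norm_num)]
      have : (k : ℝ) ≠ 0 := by exact_mod_cast hk0
      rw [one_div, inv_mul_cancel₀ this, Real.rpow_one]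
    rw [h4]
    simp

/-- Powers: `- 1` is a sum of `d`-th powers in the `p`-adic integers, `p ∣ d`. -/
lemma sum_pow_dvd (p : ℕ) [hp : Fact p.Prime] (d N : ℕ) (hd : d ≠ 0) (hpd : p ∣ d)
    (hN : d ^ 3 ≤ N) : ∃ z : Fin N → ℤ_[p], z ≠ 0 ∧ ∑ i, z i ^ d = 0 := by
  obtain ⟨v, e, he, hde⟩ := Nat.exists_eq_pow_mul_and_not_dvd hd p hp.out.ne_one
  have hv : v ≠ 0 := by
    rintro rfl
    rw [pow_zero, one_mul] at hde
    exact he (hde ▸ hpd)
  have hpv : p ^ v ≤ d := Nat.le_of_dvd (Nat.pos_of_ne_zero hd) (hde ▸ dvd_mul_right _ _)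
  have hpd' : p ≤ d := Nat.le_of_dvd (Nat.pos_of_ne_zero hd) hpd
  have hm : p ^ (2 * v + 1) ≤ N := by
    calc p ^ (2 * v + 1) = (p ^ v) ^ 2 * p := by ring
      _ ≤ d ^ 2 * d := Nat.mul_le_mul (Nat.pow_le_pow_left hpv 2) hpd'
      _ = d ^ 3 := by ring
      _ ≤ N := hN
  have hp2 : 2 ≤ p ^ (2 * v + 1) := by
    calc 2 ≤ p := hp.out.two_le
      _ = p ^ 1 := (pow_one p).symm
      _ ≤ p ^ (2 * v + 1) := Nat.pow_le_pow_right hp.out.pos (by omega)
  -- Hensel
  have hnd : ‖(d : ℤ_[p])‖ = (p : ℝ) ^ (-(v : ℤ)) := by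
    rw [hde]
    push_cast
    rw [norm_mul, norm_pow, PadicInt.norm_p]
    have : ‖(e : ℤ_[p])‖ = 1 := by
      rw [PadicInt.norm_natCast_eq_one_iff]
      exact (Nat.Prime.coprime_iff_not_dvd hp.out).2 he
    rw [this, mul_one, zpow_neg, zpow_natCast, inv_pow]
  have hens : ∃ ζ : ℤ_[p], ζ ^ d = 1 - (p : ℤ_[p]) ^ (2 * v + 1) := by
    let f : Polynomial ℤ_[p] := Polynomial.X ^ d - Polynomial.C (1 - (p : ℤ_[p]) ^ (2 * v + 1))
    have h1 : f.eval 1 = (p : ℤ_[p]) ^ (2 * v + 1) := by simp [f]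
    have h2 : f.derivative.eval 1 = (d : ℤ_[p]) := by
      simp only [f, Polynomial.derivative_sub, Polynomial.derivative_C, sub_zero,
        Polynomial.derivative_X_pow]
      simp
    have h3 : ‖f.eval 1‖ < ‖f.derivative.eval 1‖ ^ 2 := by
      rw [h1, h2, hnd, norm_pow, PadicInt.norm_p]
      rw [← zpow_natCast ((p : ℝ) ^ (-(v : ℤ))) 2, ← zpow_mul, inv_pow, ← zpow_natCast,
        ← zpow_neg]
      apply zpow_lt_zpow_right₀
      · exact_mod_cast hp.out.one_lt
      · push_cast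
        linarith
    obtain ⟨ζ, hζ, _⟩ := hensels_lemma (F := f) (a := 1)
      (by rw [Polynomial.coe_aeval_eq_eval]; exact h3)
    refine ⟨ζ, ?_⟩
    have h4 : f.eval ζ = 0 := by rw [← Polynomial.coe_aeval_eq_eval]; exact hζ
    simp only [f, Polynomial.eval_sub, Polynomial.eval_pow, Polynomial.eval_X,
      Polynomial.eval_C] at h4
    exact sub_eq_zero.1 h4
  obtain ⟨ζ, hζ⟩ := hens
  set m := p ^ (2 * v + 1) with hmdef
  let g : ℕ → ℤ_[p] := fun i => if i = 0 then ζ else if i < m then 1 else 0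
  refine ⟨fun i => g i.val, ?_, ?_⟩
  · intro h
    have := congrFun h ⟨1, by omega⟩
    simp only [g, Pi.zero_apply] at this
    rw [if_neg (by norm_num), if_pos (by omega)] at this
    exact one_ne_zero this
  · have h1 : ∑ i : Fin N, g i.val ^ d = ∑ i ∈ range N, g i ^ d :=
      Fin.sum_univ_eq_sum_range (fun i => g i ^ d) N
    rw [h1]
    obtain ⟨r, hr⟩ : ∃ r, N = m + r := ⟨N - m, by omega⟩
    rw [hr, sum_range_add]
    have h2 : ∑ i ∈ range r, g (m + i) ^ d = 0 := by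
      apply sum_eq_zero
      intro i _
      have h3 : g (m + i) = 0 := by
        simp only [g]
        rw [if_neg (by omega), if_neg (by omega)]
      rw [h3, zero_pow hd]
    rw [h2, add_zero]
    obtain ⟨m', hm'⟩ : ∃ m', m = m' + 1 := ⟨m - 1, by omega⟩
    rw [hm', sum_range_succ']
    have h4 : ∑ i ∈ range m', g (i + 1) ^ d = (m' : ℤ_[p]) := by
      have h5 : ∀ i ∈ range m', g (i + 1) ^ d = 1 := by
        intro i hi
        have : g (i + 1) = 1 := by
          simp only [g]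
          have := mem_range.1 hi
          rw [if_neg (by omega), if_pos (by omega)]
        rw [this, one_pow]
      rw [sum_congr rfl h5]
      simp
    have h5 : g 0 = ζ := by simp [g]
    rw [h4, h5, hζ]
    have h6 : (p : ℤ_[p]) ^ (2 * v + 1) = (m' : ℤ_[p]) + 1 := by
      have : ((p ^ (2 * v + 1) : ℕ) : ℤ_[p]) = ((m' + 1 : ℕ) : ℤ_[p]) := by
        rw [← hm']
      push_cast at this
      exact this
    rw [h6]
    ring

/-- Chevalley's theorem and Hensel's lemma. -/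
lemma sum_pow_coprime (p : ℕ) [hp : Fact p.Prime] (d N : ℕ) (hd : d ≠ 0) (hpd : ¬ p ∣ d)
    (hN : d < N) : ∃ z : Fin N → ℤ_[p], z ≠ 0 ∧ ∑ i, z i ^ d = 0 := by
  classical
  -- a nontrivial solution modulo p
  let P : MvPolynomial (Fin N) (ZMod p) := ∑ i, MvPolynomial.X i ^ d
  have hdeg : P.totalDegree < Fintype.card (Fin N) := by
    rw [Fintype.card_fin]
    refine lt_of_le_of_lt (MvPolynomial.totalDegree_finsetSum _ _) ?_
    refine (Finset.sup_lt_iff (lt_of_le_of_lt (Nat.zero_le d) hN)).2 fun i _ => ?_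
    rw [MvPolynomial.totalDegree_X_pow]
    exact hN
  have hcw := char_dvd_card_solutions p hdeg
  have hne : ∃ a : Fin N → ZMod p, a ≠ 0 ∧ ∑ i, a i ^ d = 0 := by
    by_contra hcon
    push Not at hcon
    have h1 : ∀ a : {x : Fin N → ZMod p // MvPolynomial.eval x P = 0}, a = ⟨0, by
        simp [P, hd]⟩ := by
      rintro ⟨a, ha⟩
      apply Subtype.ext
      by_contra h
      apply hcon a h
      simpa [P] using ha
    have h2 : Fintype.card {x : Fin N → ZMod p // MvPolynomial.eval x P = 0} = 1 :=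
      Fintype.card_eq_one_iff.2 ⟨_, h1⟩
    rw [h2] at hcw
    exact hp.out.one_lt.ne' (Nat.dvd_one.1 hcw)
  obtain ⟨a, ha, ha0⟩ := hne
  obtain ⟨j, hj⟩ : ∃ j, a j ≠ 0 := by
    by_contra h
    push Not at h
    exact ha (funext h)
  -- lift
  let b : Fin N → ℤ_[p] := fun i => ((a i).val : ℤ_[p])
  have hb : ∀ i, PadicInt.toZMod (b i) = a i := by
    intro i
    simp only [b]
    rw [map_natCast, ZMod.natCast_zmod_val]
  let c : ℤ_[p] := -∑ i ∈ univ.erase j, b i ^ d
  let f : Polynomial ℤ_[p] := Polynomial.X ^ d - Polynomial.C c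
  have hunit : ∀ x : ℤ_[p], PadicInt.toZMod x ≠ 0 → ‖x‖ = 1 := by
    intro x hx
    by_contra h
    apply hx
    have h1 : ‖x‖ < 1 := lt_of_le_of_ne (PadicInt.norm_le_one x) h
    have h2 : x ∈ IsLocalRing.maximalIdeal ℤ_[p] := by
      rw [IsLocalRing.mem_maximalIdeal, mem_nonunits_iff]
      exact fun hu => h (PadicInt.isUnit_iff.1 hu)
    rw [← PadicInt.ker_toZMod] at h2
    exact h2
  have hsmall : ∀ x : ℤ_[p], PadicInt.toZMod x = 0 → ‖x‖ < 1 := by
    intro x hx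
    have h2 : x ∈ RingHom.ker (PadicInt.toZMod (p := p)) := hx
    rw [PadicInt.ker_toZMod, IsLocalRing.mem_maximalIdeal, mem_nonunits_iff] at h2
    exact lt_of_le_of_ne (PadicInt.norm_le_one x) fun h => h2 (PadicInt.isUnit_iff.2 h)
  have h1 : ‖f.eval (b j)‖ < 1 := by
    apply hsmall
    have : f.eval (b j) = ∑ i, b i ^ d := by
      simp only [f, Polynomial.eval_sub, Polynomial.eval_pow, Polynomial.eval_X, Polynomial.eval_C,
        c, sub_neg_eq_add]
      exact add_sum_erase univ (fun i => b i ^ d) (mem_univ j)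
    rw [this, map_sum, ← ha0]
    exact sum_congr rfl fun i _ => by rw [map_pow, hb]
  have h2 : ‖f.derivative.eval (b j)‖ = 1 := by
    apply hunit
    have h3 : f.derivative.eval (b j) = (d : ℤ_[p]) * b j ^ (d - 1) := by
      simp only [f, Polynomial.derivative_sub, Polynomial.derivative_C, sub_zero,
        Polynomial.derivative_X_pow]
      simp
    rw [h3, map_mul, map_pow, hb, map_natCast]
    refine mul_ne_zero ?_ (pow_ne_zero _ hj)
    rwa [Ne, ZMod.natCast_eq_zero_iff]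
  obtain ⟨ζ, hζ, hζ2, _⟩ := hensels_lemma (F := f) (a := b j) (by
    rw [Polynomial.coe_aeval_eq_eval, h2, one_pow]; exact h1)
  rw [Polynomial.coe_aeval_eq_eval] at hζ hζ2
  have hζ0 : f.eval ζ = 0 := hζ
  have hζ1 : ‖ζ - b j‖ < 1 := by
    rw [h2] at hζ2
    exact hζ2
  have hbj : ‖b j‖ = 1 := hunit _ (by rw [hb]; exact hj)
  refine ⟨Function.update b j ζ, ?_, ?_⟩
  · intro h
    have h3 := congrFun h j
    rw [Function.update_self, Pi.zero_apply] at h3
    rw [h3, zero_sub, norm_neg, hbj] at hζ1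
    exact lt_irrefl _ hζ1
  · rw [← add_sum_erase univ _ (mem_univ j), Function.update_self]
    have h3 : ∑ i ∈ univ.erase j, Function.update b j ζ i ^ d = ∑ i ∈ univ.erase j, b i ^ d := by
      apply sum_congr rfl
      intro i hi
      rw [Function.update_of_ne (ne_of_mem_erase hi)]
    rw [h3]
    simp only [f, Polynomial.eval_sub, Polynomial.eval_pow, Polynomial.eval_X, Polynomial.eval_C,
      c, sub_neg_eq_add] at hζ0
    exact hζ0

lemma padic_zero (p : ℕ) [hp : Fact p.Prime] (t k : ℕ) (hk0 : k ≠ 0) (ht : 8 * k ^ 3 ≤ t + 1) :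
    HasZero ℚ_[p] (mat t) k := by
  have hd : 2 * k ≠ 0 := by omega
  have hN : (2 * k) ^ 3 ≤ t + 1 := by
    calc (2 * k) ^ 3 = 8 * k ^ 3 := by ring
      _ ≤ t + 1 := ht
  have hlt : 2 * k < t + 1 := by
    refine lt_of_lt_of_le ?_ hN
    have h1 : 2 ≤ 2 * k := by omega
    calc 2 * k = (2 * k) ^ 1 := (pow_one _).symm
      _ < (2 * k) ^ 3 := Nat.pow_lt_pow_right (by omega) (by norm_num)
  obtain ⟨z, hz, hz0⟩ : ∃ z : Fin (t + 1) → ℤ_[p], z ≠ 0 ∧ ∑ i, z i ^ (2 * k) = 0 := by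
    by_cases h : p ∣ 2 * k
    · exact sum_pow_dvd p (2 * k) (t + 1) hd h hN
    · exact sum_pow_coprime p (2 * k) (t + 1) hd h hlt
  refine ⟨Fin.cons 0 (Fin.cons 0 (fun i : Fin (t + 1) => (z i : ℚ_[p]))), ?_, ?_⟩
  · intro h
    apply hz
    funext i
    have h1 := congrFun h i.succ.succ
    rw [Fin.cons_succ, Fin.cons_succ, Pi.zero_apply] at h1
    rw [Pi.zero_apply]
    exact PadicInt.coe_eq_zero.1 h1
  · rw [form_eq (L := ℚ_[p]) t]
    have e0 : (Fin.cons 0 (Fin.cons 0 (fun i : Fin (t + 1) => (z i : ℚ_[p]))) :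
      Fin (t + 3) → ℚ_[p]) 0 = 0 := rfl
    have e1 : (Fin.cons 0 (Fin.cons 0 (fun i : Fin (t + 1) => (z i : ℚ_[p]))) :
      Fin (t + 3) → ℚ_[p]) 1 = 0 := rfl
    have e2 : (Fin.cons 0 (Fin.cons 0 (fun i : Fin (t + 1) => (z i : ℚ_[p]))) :
      Fin (t + 3) → ℚ_[p]) 2 = z 0 := rfl
    have e3 : ∀ i : Fin t, (Fin.cons 0 (Fin.cons 0 (fun i : Fin (t + 1) => (z i : ℚ_[p]))) :
      Fin (t + 3) → ℚ_[p]) i.succ.succ.succ = z i.succ := fun i => rfl
    rw [e0, e1, e2]
    simp only [e3, zero_pow hk0]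
    have h1 : (∑ i, (z i : ℚ_[p]) ^ (2 * k)) = 0 := by
      have := congrArg (PadicInt.Coe.ringHom (p := p)) hz0
      rw [map_sum, map_zero] at this
      rw [← this]
      exact sum_congr rfl fun i _ => by rw [map_pow]; rfl
    rw [Fin.sum_univ_succ] at h1
    simp only [← pow_mul, mul_comm k 2]
    simp only [mul_zero, sub_zero, zero_mul, add_zero, zero_add, ne_eq, OfNat.ofNat_ne_zero,
      not_false_eq_true, zero_pow]
    exact h1

/-- For every even `k ≥ 2` and every `s ≥ 8 k ^ 3 + 2` there is a nonsingular quadratic form `Q` over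
the rational numbers in `s` variables for which `Q (y₁ ^ k, ..., y_s ^ k)` violates the Hasse
principle.  So for even `k` there is no threshold `s₀` such that the Hasse principle holds for all
`s ≥ s₀`: the number `h (k)` is infinite. -/
theorem result :
    (∀ k : ℕ, Even k → k ≠ 0 → ∀ s : ℕ, 8 * k ^ 3 + 2 ≤ s → ¬ Hasse k s) ∧
    (∀ k : ℕ, Even k → k ≠ 0 → ¬ ∃ s₀ : ℕ, ∀ s : ℕ, s₀ ≤ s → Hasse k s) := by
  have h1 : ∀ k : ℕ, Even k → k ≠ 0 → ∀ s : ℕ, 8 * k ^ 3 + 2 ≤ s → ¬ Hasse k s := by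
    intro k hk hk0 s hs H
    have h8 : 8 ≤ 8 * k ^ 3 := by
      have : 1 ≤ k ^ 3 := Nat.one_le_pow _ _ (Nat.pos_of_ne_zero hk0)
      omega
    obtain ⟨t, rfl⟩ : ∃ t, s = t + 3 := ⟨s - 3, by omega⟩
    exact no_rational t k hk hk0 (H (mat t) (mat_symm t) (mat_det t) (real_zero t k hk0)
      fun p _ => padic_zero p t k hk0 (by omega))
  refine ⟨h1, ?_⟩
  rintro k hk hk0 ⟨s₀, hs⟩
  exact h1 k hk hk0 (max s₀ (8 * k ^ 3 + 2)) (le_max_right _ _) (hs _ (le_max_left _ _))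

end Pool.Agent.Results.MP_c0a553_nt.EvenPowers
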